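import Pool.Agent.J6H38.DIR.Stm

/-! Project DIR (helper37): module TOPO. Two lattice paths from `0`, one to the right, one to the left,
separate the plane: parity of the crossings below a vertex. -/

set_option autoImplicit false

open Filter Topology

namespace Pool.Agent.J6H37.DIR

open Pool.Agent.J6H99.NC Pool.Agent.J6H38.DIR

/-- the step from `p` to `q` crosses the half-line below the square with lower left corner `v` -/
def cx (i j : Fin (0 + 2)) (v p q : V 0) : ZMod 2 :=
  if ((p i = v i ∧ q i = v i + 1) ∨ (p i = v i + 1 ∧ q i = v i)) ∧ p j ≤ v j then 1 else 0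

/-- the half-column below `v + e_i` -/
def hc (i j : Fin (0 + 2)) (v p : V 0) : ZMod 2 := if p i = v i + 1 ∧ p j ≤ v j then 1 else 0

/-- the half-plane to the left of `m` -/
def lf' (i : Fin (0 + 2)) (m : ℤ) (p : V 0) : ZMod 2 := if p i ≤ m then 1 else 0

theorem tele (f : ℕ → ZMod 2) (N : ℕ) : ∑ n ∈ Finset.range N, (f n + f (n + 1)) = f 0 + f N := by
  induction N with
  | zero =>
    rw [Finset.range_zero, Finset.sum_empty]
    exact (CharTwo.add_self_eq_zero (f 0)).symm
  | succ N ih =>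
    rw [Finset.sum_range_succ, ih]
    have := CharTwo.add_self_eq_zero (f N)
    linear_combination this

theorem n1_two {i j : Fin (0 + 2)} (hij : i ≠ j) (x : V 0) : n1 x = |x i| + |x j| := by
  unfold n1
  rw [Fin.sum_univ_two]
  have hi : i = 0 ∨ i = 1 := by fin_cases i <;> simp
  have hj : j = 0 ∨ j = 1 := by fin_cases j <;> simp
  rcases hi with rfl | rfl <;> rcases hj with rfl | rfl
  · exact absurd rfl hij
  · rfl
  · rw [add_comm]
  · exact absurd rfl hij

theorem ext_two {i j : Fin (0 + 2)} (hij : i ≠ j) {x y : V 0} (h1 : x i = y i) (h2 : x j = y j) : x = y := by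
  apply eq_of_n1
  rw [n1_two hij]
  simp [h1, h2]

/-- the two kinds of steps -/
theorem adj_two {i j : Fin (0 + 2)} (hij : i ≠ j) {p q : V 0} (h : (lat 0).Adj p q) :
    (p i = q i ∧ (p j = q j + 1 ∨ q j = p j + 1)) ∨ (p j = q j ∧ (p i = q i + 1 ∨ q i = p i + 1)) := by
  have h1 : n1 (p - q) = 1 := h
  rw [n1_two hij, Pi.sub_apply, Pi.sub_apply] at h1
  rcases abs_cases (p i - q i) with h2 | h2 <;> rcases abs_cases (p j - q j) with h3 | h3 <;> omega

theorem ne_two {i j : Fin (0 + 2)} (hij : i ≠ j) {p v : V 0} (h : p ≠ v) : ¬ (p i = v i ∧ p j = v j) :=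
  fun h1 => h (ext_two hij h1.1 h1.2)

theorem step_vert {i j : Fin (0 + 2)} (hij : i ≠ j) {v v' p q : V 0} (h1 : v' i = v i) (h2 : v' j = v j + 1)
    (ha : (lat 0).Adj p q) (hp : p ≠ v') (hq : q ≠ v') : cx i j v p q = cx i j v' p q := by
  have a := adj_two hij ha
  have b := ne_two hij hp
  have c := ne_two hij hq
  unfold cx
  split_ifs <;> first | rfl | (exfalso; omega)

theorem step_hor {i j : Fin (0 + 2)} (hij : i ≠ j) {v v' p q : V 0} (h1 : v' i = v i + 1) (h2 : v' j = v j)
    (ha : (lat 0).Adj p q) (hp : p ≠ v') (hq : q ≠ v') :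
    cx i j v p q + cx i j v' p q = hc i j v p + hc i j v q := by
  have a := adj_two hij ha
  have b := ne_two hij hp
  have c := ne_two hij hq
  unfold cx hc
  split_ifs <;> first | rfl | (exfalso; omega)

/-- the parity -/
def sg (i j : Fin (0 + 2)) (X X' : ℕ → V 0) (N : ℕ) (v : V 0) : ZMod 2 :=
  ∑ n ∈ Finset.range N, cx i j v (X n) (X (n + 1)) + ∑ n ∈ Finset.range N, cx i j v (X' n) (X' (n + 1))

section

variable {i j : Fin (0 + 2)} {X X' : ℕ → V 0}

theorem sg_vert (hij : i ≠ j) (hX : ∀ n, (lat 0).Adj (X n) (X (n + 1)))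
    (hX' : ∀ n, (lat 0).Adj (X' n) (X' (n + 1))) (N : ℕ) {v v' : V 0} (h1 : v' i = v i) (h2 : v' j = v j + 1)
    (hv : ∀ n, X n ≠ v') (hv' : ∀ n, X' n ≠ v') : sg i j X X' N v = sg i j X X' N v' := by
  unfold sg
  congr 1
  · exact Finset.sum_congr rfl fun n _ => step_vert hij h1 h2 (hX n) (hv _) (hv _)
  · exact Finset.sum_congr rfl fun n _ => step_vert hij h1 h2 (hX' n) (hv' _) (hv' _)

theorem sg_hor (hij : i ≠ j) (h0 : X 0 = 0) (h0' : X' 0 = 0) (hX : ∀ n, (lat 0).Adj (X n) (X (n + 1)))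
    (hX' : ∀ n, (lat 0).Adj (X' n) (X' (n + 1))) {N : ℕ} {v v' : V 0} (h1 : v' i = v i + 1) (h2 : v' j = v j)
    (hN : X N i ≠ v i + 1) (hN' : X' N i ≠ v i + 1)
    (hv : ∀ n, X n ≠ v') (hv' : ∀ n, X' n ≠ v') : sg i j X X' N v = sg i j X X' N v' := by
  have e1 : sg i j X X' N v + sg i j X X' N v' = 0 := by
    unfold sg
    have s1 : ∑ n ∈ Finset.range N, cx i j v (X n) (X (n + 1)) + ∑ n ∈ Finset.range N, cx i j v' (X n) (X (n + 1)) =
        hc i j v (X 0) + hc i j v (X N) := by
      rw [← Finset.sum_add_distrib, ← tele (fun n => hc i j v (X n))]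
      exact Finset.sum_congr rfl fun n _ => step_hor hij h1 h2 (hX n) (hv _) (hv _)
    have s2 : ∑ n ∈ Finset.range N, cx i j v (X' n) (X' (n + 1)) + ∑ n ∈ Finset.range N, cx i j v' (X' n) (X' (n + 1)) =
        hc i j v (X' 0) + hc i j v (X' N) := by
      rw [← Finset.sum_add_distrib, ← tele (fun n => hc i j v (X' n))]
      exact Finset.sum_congr rfl fun n _ => step_hor hij h1 h2 (hX' n) (hv' _) (hv' _)
    have s3 : hc i j v (X N) = 0 := by
      unfold hc
      rw [if_neg fun h => hN h.1]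
    have s4 : hc i j v (X' N) = 0 := by
      unfold hc
      rw [if_neg fun h => hN' h.1]
    rw [h0, s3] at s1
    rw [h0', s4] at s2
    have s5 := CharTwo.add_self_eq_zero (hc i j v 0)
    linear_combination s1 + s2 + s5
  exact (CharTwo.add_eq_zero).1 e1

theorem sg_walk (hij : i ≠ j) (h0 : X 0 = 0) (h0' : X' 0 = 0) (hX : ∀ n, (lat 0).Adj (X n) (X (n + 1)))
    (hX' : ∀ n, (lat 0).Adj (X' n) (X' (n + 1))) {N : ℕ} {M : ℤ} (hN : M < X N i) (hN' : X' N i < -M) {a b : V 0}
    (P : (lat 0).Walk a b) (hM : ∀ v ∈ P.support, |v i| + 2 ≤ M) (hv : ∀ n, X n ∉ P.support)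
    (hv' : ∀ n, X' n ∉ P.support) : sg i j X X' N a = sg i j X X' N b := by
  induction P with
  | nil => rfl
  | @cons u v w h p ih =>
    have hu : ∀ n, X n ≠ u := fun n hn => hv n (by rw [hn]; exact SimpleGraph.Walk.start_mem_support _)
    have hu' : ∀ n, X' n ≠ u := fun n hn => hv' n (by rw [hn]; exact SimpleGraph.Walk.start_mem_support _)
    have hsub : ∀ x ∈ p.support, x ∈ (SimpleGraph.Walk.cons h p).support := fun x hx => by
      rw [SimpleGraph.Walk.support_cons]
      exact List.mem_cons_of_mem _ hx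
    have hp : ∀ n, X n ≠ v := fun n hn => hv n (hsub _ (by rw [hn]; exact SimpleGraph.Walk.start_mem_support _))
    have hp' : ∀ n, X' n ≠ v := fun n hn => hv' n (hsub _ (by rw [hn]; exact SimpleGraph.Walk.start_mem_support _))
    have e2 := ih (fun x hx => hM x (hsub x hx)) (fun n hn => hv n (hsub _ hn)) (fun n hn => hv' n (hsub _ hn))
    have mu := hM u (SimpleGraph.Walk.start_mem_support _)
    have mv := hM v (hsub _ (SimpleGraph.Walk.start_mem_support _))
    rw [← e2]
    have au := abs_le.1 (le_refl |u i|)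
    have av := abs_le.1 (le_refl |v i|)
    rcases adj_two hij h with ⟨h1, h2 | h2⟩ | ⟨h1, h2 | h2⟩
    · exact (sg_vert hij hX hX' N h1 h2 hu hu').symm
    · exact sg_vert hij hX hX' N h1.symm h2 hp hp'
    · refine (sg_hor hij h0 h0' hX hX' h2 h1 ?_ ?_ hu hu').symm
      · omega
      · omega
    · refine sg_hor hij h0 h0' hX hX' h2 h1.symm ?_ ?_ hp hp'
      · omega
      · omega

end

/-- **Module TOPO.** -/
theorem topo : TopoT := by
  intro i j hij X X' h0 h0' hX hX' ht ht' a b P hab hv hv' hc1 hc2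
  -- a bound for the columns of `P`
  obtain ⟨M, hM⟩ : ∃ M : ℤ, ∀ v ∈ P.support, |v i| + 2 ≤ M := by
    refine ⟨(P.support.map fun v => |v i| + 2).sum, fun v hv => ?_⟩
    refine List.single_le_sum ?_ _ (List.mem_map.2 ⟨v, hv, rfl⟩)
    intro x hx
    obtain ⟨w, _, rfl⟩ := List.mem_map.1 hx
    positivity
  obtain ⟨N, hN, hN'⟩ := ((ht.eventually_gt_atTop M).and (ht'.eventually_lt_atBot (-M))).exists
  have key := sg_walk hij h0 h0' hX hX' hN hN' P hM hv hv'
  have ma := hM a (SimpleGraph.Walk.start_mem_support _)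
  have aa := abs_le.1 (le_refl |a i|)
  -- at the end
  have eb : sg i j X X' N b = 0 := by
    unfold sg
    rw [Finset.sum_eq_zero, Finset.sum_eq_zero, add_zero]
    · intro n _
      unfold cx
      rw [if_neg]
      rintro ⟨h1, h2⟩
      have := hc2 n (by rw [hab]; omega)
      omega
    · intro n _
      unfold cx
      rw [if_neg]
      rintro ⟨h1, h2⟩
      have := hc1 n (by rw [hab]; omega)
      omega
  -- at the beginning
  have st : ∀ p q : V 0, (lat 0).Adj p q → ((p i = a i ∨ p i = a i + 1) → p j < a j) →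
      cx i j a p q = lf' i (a i) p + lf' i (a i) q := by
    intro p q hpq hp
    have h1 := adj_two hij hpq
    unfold cx lf'
    split_ifs <;> first | rfl | (exfalso; omega)
  have ea : sg i j X X' N a = 1 := by
    unfold sg
    have s1 : ∑ n ∈ Finset.range N, cx i j a (X n) (X (n + 1)) = lf' i (a i) (X 0) + lf' i (a i) (X N) := by
      rw [← tele (fun n => lf' i (a i) (X n))]
      exact Finset.sum_congr rfl fun n _ => st _ _ (hX n) fun h => (hc1 n h).2
    have s2 : ∑ n ∈ Finset.range N, cx i j a (X' n) (X' (n + 1)) = lf' i (a i) (X' 0) + lf' i (a i) (X' N) := by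
      rw [← tele (fun n => lf' i (a i) (X' n))]
      exact Finset.sum_congr rfl fun n _ => st _ _ (hX' n) fun h => (hc2 n h).2
    have s3 : lf' i (a i) (X N) = 0 := by
      unfold lf'
      rw [if_neg (by omega)]
    have s4 : lf' i (a i) (X' N) = 1 := by
      unfold lf'
      rw [if_pos (by omega)]
    rw [s1, s2, h0, h0', s3, s4]
    have s5 := CharTwo.add_self_eq_zero (lf' i (a i) 0)
    linear_combination s5
  rw [ea, eb] at key
  exact absurd key (by decide)

end Pool.Agent.J6H37.DIR
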